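import Pool.Agent.Helper20.Flip.Sh.Par

/-!
# The twin phase: lower bound for the number of flips (core)
-/

set_option autoImplicit false

namespace Pool.Agent.Helper20.Flip.Sh

namespace TLow

/-- One bouncer: walls `x < y`, the small edge has velocity `p`; `k` flips are still necessary. -/
structure Side (L v₁ d₁ U lo hi : ℝ) (k : ℕ) (x p y : ℝ) : Prop where
  hv : v₁ ≤ y - x
  hy : y ≤ hi + (y - x - v₁)
  hx : lo - (y - x - v₁) ≤ x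
  h : (x ≤ p ∧ p ≤ y ∧ k = 0 ∧ y - x ≤ U + L * d₁) ∨
    ∃ d, 0 < d ∧ d ≤ d₁ ∧ (p = y + d ∨ p = x - d) ∧ y - x + L * d₁ / v₁ * d ≤ U ∧ k * U ≤ d

theorem num {L v₁ d₁ U v v' d : ℝ} {k : ℕ} (hL : 0 < L) (hv₁ : 0 < v₁) (hv : v₁ ≤ v)
    (hv' : v ≤ v') (hv'' : v' ≤ v + L * d) (hd : 0 < d) (hd₁ : d ≤ d₁)
    (hU : v + L * d₁ / v₁ * d ≤ U) (hk : k * U ≤ d) :
    (v' < d ∧ v' + L * d₁ / v₁ * (d - v') ≤ U ∧ ((k - 1 : ℕ) : ℝ) * U ≤ d - v') ∨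
    (d ≤ v' ∧ k ≤ 1 ∧ v' ≤ U + L * d₁) := by
  have hd₁0 : 0 < d₁ := lt_of_lt_of_le hd hd₁
  have hC : 0 < L * d₁ / v₁ := by positivity
  have hU0 : 0 < U := by nlinarith [mul_pos hC hd]
  have key : v' + L * d₁ / v₁ * (d - v') ≤ U := by
    have h1 : L * d₁ / v₁ * v₁ = L * d₁ := by field_simp
    have h2 : L * d₁ / v₁ * v₁ ≤ L * d₁ / v₁ * v' :=
      mul_le_mul_of_nonneg_left (hv.trans hv') hC.le
    have h3 : L * d ≤ L * d₁ := mul_le_mul_of_nonneg_left hd₁ hL.le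
    nlinarith
  rcases lt_or_ge v' d with h | h
  · left
    refine ⟨h, key, ?_⟩
    have hv'U : v' ≤ U := by nlinarith [mul_pos hC (sub_pos.2 h)]
    rcases k with _ | k
    · simp
      exact h.le
    · push_cast at hk
      simp only [Nat.add_sub_cancel]
      nlinarith
  · right
    have h3 : L * d ≤ L * d₁ := mul_le_mul_of_nonneg_left hd₁ hL.le
    refine ⟨h, ?_, by nlinarith [mul_pos hC hd]⟩
    by_contra hk2
    have hk2 : 2 ≤ k := by omega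
    have hk3 : (2 : ℝ) ≤ k := by exact_mod_cast hk2
    have h4 : 2 * U ≤ d := le_trans (mul_le_mul_of_nonneg_right hk3 hU0.le) hk
    have h5 : v₁ ≤ d₁ := by nlinarith [mul_pos hC hd]
    have h6 : L * d ≤ L * d₁ / v₁ * d := by
      apply mul_le_mul_of_nonneg_right _ hd.le
      rw [le_div_iff₀ hv₁]
      exact mul_le_mul_of_nonneg_left h5 hL.le
    nlinarith

/-- the small edge flips with the right wall -/
theorem Side.right {L v₁ d₁ U lo hi : ℝ} (hL : 0 < L) (hv₁ : 0 < v₁) {k : ℕ} {x p y p' y' : ℝ}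
    (h : Side L v₁ d₁ U lo hi k x p y) (h1 : y < p) (h2 : y ≤ y')
    (h3 : y' ≤ y + L * (p - y)) (h4 : y' - p' = p - y) :
    ∃ k', k ≤ k' + 1 ∧ Side L v₁ d₁ U lo hi k' x p' y' := by
  obtain ⟨g1, g2, g3, g⟩ := h
  rcases g with ⟨g4, g5, g6, g7⟩ | ⟨d, g4, g5, g6, g7, g8⟩
  · exact absurd h1 (not_lt.2 g5)
  · have hp : p = y + d := by
      rcases g6 with g6 | g6
      · exact g6
      · exfalso; linarith
    subst hp
    have e1 : y + d - y = d := by ring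
    rw [e1] at h3 h4
    have hp' : p' = y' - d := by linarith
    subst hp'
    rcases num (v' := y' - x) hL hv₁ g1 (by linarith) (by linarith) g4 g5 g7 g8 with
      ⟨n1, n2, n3⟩ | ⟨n1, n2, n3⟩
    · refine ⟨k - 1, by omega, by linarith, by linarith, by linarith, Or.inr
        ⟨d - (y' - x), by linarith, by linarith, Or.inr (by ring), n2, n3⟩⟩
    · refine ⟨0, by omega, by linarith, by linarith, by linarith, Or.inl
        ⟨by linarith, by linarith, rfl, n3⟩⟩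

/-- the small edge flips with the left wall -/
theorem Side.left {L v₁ d₁ U lo hi : ℝ} (hL : 0 < L) (hv₁ : 0 < v₁) {k : ℕ} {x p y p' x' : ℝ}
    (h : Side L v₁ d₁ U lo hi k x p y) (h1 : p < x) (h2 : x' ≤ x)
    (h3 : x - L * (x - p) ≤ x') (h4 : p' - x' = x - p) :
    ∃ k', k ≤ k' + 1 ∧ Side L v₁ d₁ U lo hi k' x' p' y := by
  obtain ⟨g1, g2, g3, g⟩ := h
  rcases g with ⟨g4, g5, g6, g7⟩ | ⟨d, g4, g5, g6, g7, g8⟩
  · exact absurd h1 (not_lt.2 g4)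
  · have hp : p = x - d := by
      rcases g6 with g6 | g6
      · exfalso; linarith
      · exact g6
    subst hp
    have e1 : x - (x - d) = d := by ring
    rw [e1] at h3 h4
    have hp' : p' = x' + d := by linarith
    subst hp'
    rcases num (v' := y - x') hL hv₁ g1 (by linarith) (by linarith) g4 g5 g7 g8 with
      ⟨n1, n2, n3⟩ | ⟨n1, n2, n3⟩
    · refine ⟨k - 1, by omega, by linarith, by linarith, by linarith, Or.inr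
        ⟨d - (y - x'), by linarith, by linarith, Or.inl (by ring), n2, n3⟩⟩
    · refine ⟨0, by omega, by linarith, by linarith, by linarith, Or.inl
        ⟨by linarith, by linarith, rfl, n3⟩⟩

theorem Side.start {L v₁ d₁ U lo hi : ℝ} {k : ℕ} {x p y : ℝ} (hx : lo ≤ x) (hy : y ≤ hi)
    (hv : v₁ = y - x) (hd₁ : 0 < d₁) (hp : p = y + d₁)
    (hU : v₁ + L * d₁ ^ 2 / v₁ ≤ U) (hk : k * U ≤ d₁) : Side L v₁ d₁ U lo hi k x p y := by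
  refine ⟨hv.le, by linarith, by linarith, Or.inr ⟨d₁, hd₁, le_rfl, Or.inl hp, ?_, hk⟩⟩
  have e : L * d₁ / v₁ * d₁ = L * d₁ ^ 2 / v₁ := by ring
  rw [e, ← hv]
  exact hU

/-- bounds for a side -/
theorem Side.bounds {L v₁ d₁ U lo hi : ℝ} (hL : 0 < L) (hv₁ : 0 < v₁) (hd₁ : 0 < d₁)
    {k : ℕ} {x p y : ℝ} (h : Side L v₁ d₁ U lo hi k x p y) :
    x < y ∧ y ≤ hi + (U + L * d₁ - v₁) ∧ lo - (U + L * d₁ - v₁) ≤ x ∧
      p ≤ hi + (U + L * d₁ - v₁) + d₁ ∧ lo - (U + L * d₁ - v₁) - d₁ ≤ p := by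
  obtain ⟨g1, g2, g3, g⟩ := h
  have hLd : 0 < L * d₁ := by positivity
  rcases g with ⟨g4, g5, g6, g7⟩ | ⟨d, g4, g5, g6, g7, g8⟩
  · refine ⟨by linarith, by linarith, by linarith, by linarith, by linarith⟩
  · have hC : 0 < L * d₁ / v₁ := by positivity
    have hCd := mul_pos hC g4
    rcases g6 with g6 | g6 <;>
      refine ⟨by linarith, by linarith, by linarith, by linarith, by linarith⟩

theorem Side.not_sorted {L v₁ d₁ U lo hi : ℝ} {k : ℕ} {x p y : ℝ}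
    (h : Side L v₁ d₁ U lo hi k x p y) (hk : 0 < k) : y < p ∨ p < x := by
  obtain ⟨g1, g2, g3, g⟩ := h
  rcases g with ⟨g4, g5, g6, g7⟩ | ⟨d, g4, g5, g6, g7, g8⟩
  · omega
  · rcases g6 with g6 | g6
    · left; linarith
    · right; linarith

/-- the condition of the twin phase -/
def G (N : ℕ) (τ e lz lp la lb lr lu : ℝ) (rest : List Edge) (v₁ d₁ U₁ v₂ d₂ U₂ : ℝ) (r : ℕ)
    (c : List Edge) : Prop :=
  EState N τ e lz lp la lb lr lu rest ∧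
  ∃ (z p a b q u : ℝ) (k₁ k₂ : ℕ), c = ech τ lz lp la lb lr lu rest z p a b q u ∧
    Side (8 * lp) v₁ d₁ U₁ (-(1 / 16)) 0 k₁ z p a ∧
    Side (32 * lr) v₂ d₂ U₂ (5 / 16 - 1 / 1000) (5 / 16 + 1 / 1000) k₂ b q u ∧ r = k₁ + k₂

theorem trange {N : ℕ} {τ e lz lp la lb lr lu : ℝ} {rest : List Edge}
    (hE : EState N τ e lz lp la lb lr lu rest) {z p a b q u d₁ v₁ U₁ d₂ v₂ U₂ : ℝ} {k₁ k₂ : ℕ}
    (hv₁ : 0 < v₁) (hd₁ : 0 < d₁) (hd₁' : d₁ ≤ 1 / 20) (hU₁' : U₁ ≤ 1 / 100)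
    (hv₂ : 0 < v₂) (hd₂ : 0 < d₂) (hd₂' : d₂ ≤ 1 / 18) (hU₂' : U₂ ≤ 1 / 1000)
    (h₁ : Side (8 * lp) v₁ d₁ U₁ (-(1 / 16)) 0 k₁ z p a)
    (h₂ : Side (32 * lr) v₂ d₂ U₂ (5 / 16 - 1 / 1000) (5 / 16 + 1 / 1000) k₂ b q u) :
    TRange z p a b q u := by
  have he := hE.he
  have hlp := hE.hlp
  have hlr := hE.hlr
  have e40 : (1 : ℝ) / 2 ^ 40 ≤ 1 / 1000000 := by norm_num
  obtain ⟨f1, f2, f3, f4, f5⟩ := h₁.bounds (by linarith) hv₁ hd₁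
  obtain ⟨g1, g2, g3, g4, g5⟩ := h₂.bounds (by linarith) hv₂ hd₂
  have hL₁ : 8 * lp * d₁ ≤ 1 / 100000 := by nlinarith
  have hL₂ : 32 * lr * d₂ ≤ 1 / 100000 := by nlinarith
  constructor <;> linarith

theorem core {N : ℕ} {τ e lz lp la lb lr lu : ℝ} {rest : List Edge}
    (hok : ∀ {z p a b r u : ℝ}, TRange z p a b r u →
      Ok N (ech τ lz lp la lb lr lu rest z p a b r u))
    (hcases : ∀ {z p a b r u : ℝ}, TRange z p a b r u → ∀ {c : List Edge},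
      CStep (ech τ lz lp la lb lr lu rest z p a b r u) c →
      (a < p ∧ ∃ p' a', c = ech τ lz lp la lb lr lu rest z p' a' b r u ∧
        a ≤ a' ∧ a' ≤ a + 8 * lp * (p - a) ∧ a' - p' = p - a) ∨
      (p < z ∧ ∃ z' p', c = ech τ lz lp la lb lr lu rest z' p' a b r u ∧
        z' ≤ z ∧ z - 8 * lp * (z - p) ≤ z' ∧ p' - z' = z - p) ∨
      (u < r ∧ ∃ r' u', c = ech τ lz lp la lb lr lu rest z p a b r' u' ∧
        u ≤ u' ∧ u' ≤ u + 8 * lr * (r - u) ∧ u' - r' = r - u) ∨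
      (r < b ∧ ∃ b' r', c = ech τ lz lp la lb lr lu rest z p a b' r' u ∧
        b' ≤ b ∧ b - 32 * lr * (b - r) ≤ b' ∧ r' - b' = b - r))
    (hE : EState N τ e lz lp la lb lr lu rest) {z p a b r u d₁ v₁ U₁ d₂ v₂ U₂ : ℝ}
    (hz : -(1 / 16) ≤ z) (ha : a ≤ 0) (hp : p = a + d₁) (hv₁ : v₁ = a - z) (hv₁' : 0 < v₁)
    (hd₁ : 0 < d₁) (hd₁' : d₁ ≤ 1 / 20) (hU₁ : v₁ + 8 * lp * d₁ ^ 2 / v₁ ≤ U₁) (hU₁' : U₁ ≤ 1 / 100)
    (hb : 5 / 16 - 1 / 1000 ≤ b) (hu : u ≤ 5 / 16 + 1 / 1000) (hr : r = u + d₂) (hv₂ : v₂ = u - b)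
    (hv₂' : 0 < v₂) (hd₂ : 0 < d₂) (hd₂' : d₂ ≤ 1 / 18)
    (hU₂ : v₂ + 32 * lr * d₂ ^ 2 / v₂ ≤ U₂) (hU₂' : U₂ ≤ 1 / 1000) {k₁ k₂ : ℕ}
    (hk₁ : k₁ * U₁ ≤ d₁) (hk₂ : k₂ * U₂ ≤ d₂) :
    ∃ G : ℕ → List Edge → Prop,
      G (k₁ + k₂) (ech τ lz lp la lb lr lu rest z p a b r u) ∧ (∀ r c, G r c → Ok N c) ∧
      (∀ r c, G r c → 0 < r → ¬ WSorted c) ∧
      ∀ r c c', G r c → CStep c c' → ∃ r', r ≤ r' + 1 ∧ G r' c' := by
  have hlp := hE.hlp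
  have hlr := hE.hlr
  have hL₁ : 0 < 8 * lp := by linarith
  have hL₂ : 0 < 32 * lr := by linarith
  refine ⟨G N τ e lz lp la lb lr lu rest v₁ d₁ U₁ v₂ d₂ U₂, ?_, ?_, ?_, ?_⟩
  · exact ⟨hE, z, p, a, b, r, u, k₁, k₂, rfl,
      Side.start hz ha hv₁ hd₁ hp hU₁ hk₁, Side.start hb hu hv₂ hd₂ hr hU₂ hk₂, rfl⟩
  · rintro r c ⟨_, z, p, a, b, q, u, k₁, k₂, rfl, h₁, h₂, _⟩
    exact hok (trange hE hv₁' hd₁ hd₁' hU₁' hv₂' hd₂ hd₂' hU₂' h₁ h₂)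
  · rintro r c ⟨_, z, p, a, b, q, u, k₁, k₂, rfl, h₁, h₂, rfl⟩ hr0 hw
    have hτ := hE.hτ
    simp only [WSorted, ech, List.pairwise_cons, List.mem_cons, forall_eq_or_imp] at hw
    obtain ⟨⟨w1, w2, w3, w4, w5, w6⟩, ⟨x1, x2, x3, x4, x5⟩, ⟨y1, y2, y3, y4⟩, ⟨z1, z2, z3⟩,
      ⟨t1, t2⟩, _⟩ := hw
    rcases Nat.eq_zero_or_pos k₁ with h0 | h0
    · have h0' : 0 < k₂ := by omega
      rcases h₂.not_sorted h0' with h | h
      · exact absurd (mul_lt_mul_of_pos_left h hτ) (not_lt.2 t1)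
      · exact absurd (mul_lt_mul_of_pos_left h hτ) (not_lt.2 z1)
    · rcases h₁.not_sorted h0 with h | h
      · exact absurd (mul_lt_mul_of_pos_left h hτ) (not_lt.2 x1)
      · exact absurd (mul_lt_mul_of_pos_left h hτ) (not_lt.2 w1)
  · rintro r c c' ⟨_, z, p, a, b, q, u, k₁, k₂, rfl, h₁, h₂, rfl⟩ hc
    rcases hcases (trange hE hv₁' hd₁ hd₁' hU₁' hv₂' hd₂ hd₂' hU₂' h₁ h₂) hc with
      ⟨c1, p', a', rfl, c2, c3, c4⟩ | ⟨c1, z', p', rfl, c2, c3, c4⟩ |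
      ⟨c1, q', u', rfl, c2, c3, c4⟩ | ⟨c1, b', q', rfl, c2, c3, c4⟩
    · obtain ⟨k', hk', hs⟩ := h₁.right hL₁ hv₁' c1 c2 c3 c4
      exact ⟨k' + k₂, by omega, hE, _, _, _, _, _, _, k', k₂, rfl, hs, h₂, rfl⟩
    · obtain ⟨k', hk', hs⟩ := h₁.left hL₁ hv₁' c1 c2 c3 c4
      exact ⟨k' + k₂, by omega, hE, _, _, _, _, _, _, k', k₂, rfl, hs, h₂, rfl⟩
    · have c3' : u' ≤ u + 32 * lr * (q - u) := by nlinarith [mul_pos hlr.1 (sub_pos.2 c1)]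
      obtain ⟨k', hk', hs⟩ := h₂.right hL₂ hv₂' c1 c2 c3' c4
      exact ⟨k₁ + k', by omega, hE, _, _, _, _, _, _, k₁, k', rfl, h₁, hs, rfl⟩
    · obtain ⟨k', hk', hs⟩ := h₂.left hL₂ hv₂' c1 c2 c3 c4
      exact ⟨k₁ + k', by omega, hE, _, _, _, _, _, _, k₁, k', rfl, h₁, hs, rfl⟩

end TLow

end Pool.Agent.Helper20.Flip.Sh
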