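import Pool.Agent.Helper4.Flip.Sh.TStep
import Pool.Agent.Helper97.Flip.TLowCore

/-!
# The twin phase: lower bound for the number of flips
-/

set_option autoImplicit false

namespace Pool.Agent.Helper20.Flip.Sh

theorem twin_low {N : ℕ} {τ e lz lp la lb lr lu : ℝ} {rest : List Edge}
    (hE : EState N τ e lz lp la lb lr lu rest) {z p a b r u d₁ v₁ U₁ d₂ v₂ U₂ : ℝ}
    (hz : -(1 / 16) ≤ z) (ha : a ≤ 0) (hp : p = a + d₁) (hv₁ : v₁ = a - z) (hv₁' : 0 < v₁)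
    (hd₁ : 0 < d₁) (hd₁' : d₁ ≤ 1 / 20) (hU₁ : v₁ + 8 * lp * d₁ ^ 2 / v₁ ≤ U₁) (hU₁' : U₁ ≤ 1 / 100)
    (hb : 5 / 16 - 1 / 1000 ≤ b) (hu : u ≤ 5 / 16 + 1 / 1000) (hr : r = u + d₂) (hv₂ : v₂ = u - b)
    (hv₂' : 0 < v₂) (hd₂ : 0 < d₂) (hd₂' : d₂ ≤ 1 / 18)
    (hU₂ : v₂ + 32 * lr * d₂ ^ 2 / v₂ ≤ U₂) (hU₂' : U₂ ≤ 1 / 1000) {k₁ k₂ : ℕ}
    (hk₁ : k₁ * U₁ ≤ d₁) (hk₂ : k₂ * U₂ ≤ d₂) :
    ∃ G : ℕ → List Edge → Prop,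
      G (k₁ + k₂) (ech τ lz lp la lb lr lu rest z p a b r u) ∧ (∀ r c, G r c → Ok N c) ∧
      (∀ r c, G r c → 0 < r → ¬ WSorted c) ∧
      ∀ r c c', G r c → CStep c c' → ∃ r', r ≤ r' + 1 ∧ G r' c' :=
  TLow.core (fun h => ech_ok hE h) (fun h _ hc => tstep_cases hE h hc) hE hz ha hp hv₁ hv₁' hd₁ hd₁'
    hU₁ hU₁' hb hu hr hv₂ hv₂' hd₂ hd₂' hU₂ hU₂' hk₁ hk₂

end Pool.Agent.Helper20.Flip.Sh
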